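import Pool.Agent.Lib.MP_524519_ag.DU5.LNK.Iface

/-!
# The points `(η, s^n, lam s^n)`
-/

set_option autoImplicit false

namespace Pool.Agent.DU5.LNK

open MvPowerSeries

theorem ARK.dl_pow {k F : Type} [Field k] [Field F] [Algebra k F] (D : Derivation k F F)
    (c : F) (n : ℕ) :
    dl D (PowerSeries.C c * PowerSeries.X ^ n) = PowerSeries.C (D c) * PowerSeries.X ^ n := by
  ext m
  simp only [dl, PowerSeries.coeff_mk, PowerSeries.coeff_C_mul, PowerSeries.coeff_X_pow]
  split_ifs <;> simp

theorem ark : ArkStatement := by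
  intro k F _ _ _ D lam hD n η hn hη
  have hX : ∀ i, PowerSeries.X ^ n ∣ arc lam n η i := by
    intro i
    fin_cases i
    · exact hη
    · exact dvd_rfl
    · exact dvd_mul_left _ _
  have hc : ∀ i, ∀ m < n, PowerSeries.coeff m (arc lam n η i) = 0 := fun i m hm =>
    PowerSeries.X_pow_dvd_iff.mp (hX i) m hm
  have h1 : PowerSeries.coeff n (arc lam n η 1) = 1 := by
    show PowerSeries.coeff n (PowerSeries.X ^ n : PowerSeries F) = 1
    simp [PowerSeries.coeff_X_pow]
  refine ⟨?_, ?_, ?_, ?_⟩
  · intro i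
    rw [← PowerSeries.coeff_zero_eq_constantCoeff_apply]
    exact hc i 0 (Nat.pos_of_ne_zero hn)
  · intro h
    rw [h] at h1
    simp at h1
  · unfold vm
    apply le_antisymm
    · exact Nat.sInf_le ⟨1, by rw [h1]; exact one_ne_zero⟩
    · refine le_csInf ⟨n, 1, by rw [h1]; exact one_ne_zero⟩ ?_
      rintro m ⟨i, hi⟩
      by_contra hlt
      exact hi (hc i m (not_le.mp hlt))
  · have e1 : arc lam n η (0 + 1) = PowerSeries.C (1 : F) * PowerSeries.X ^ n := by
      rw [map_one, one_mul]; rfl
    have e2 : arc lam n η (0 + 2) = PowerSeries.C lam * PowerSeries.X ^ n := rfl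
    have hd : ∀ c : F, PowerSeries.X * PowerSeries.derivative F
        (PowerSeries.C c * PowerSeries.X ^ n) =
        PowerSeries.C c * ((n : PowerSeries F) * PowerSeries.X ^ n) := by
      intro c
      obtain ⟨r, rfl⟩ := Nat.exists_eq_succ_of_ne_zero hn
      rw [Derivation.leibniz, Derivation.leibniz_pow]
      simp only [PowerSeries.derivative_C, PowerSeries.derivative_X, smul_eq_mul, mul_zero,
        add_zero, mul_one, Nat.succ_eq_add_one, Nat.add_sub_cancel, nsmul_eq_mul]
      ring
    unfold jm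
    rw [e1, e2, ARK.dl_pow, ARK.dl_pow, D.map_one_eq_zero, hD, mul_sub, ← mul_assoc, ← mul_assoc,
      hd, map_zero, map_one]
    ring

end Pool.Agent.DU5.LNK
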